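import Pool.Agent.KS6_90.GI.Pert

/-!
# The Gamma-interpolation conjecture fails for every choice of at least three nodes
-/

set_option autoImplicit false

open Complex Metric

namespace Pool.Agent.Results.MP_2550b6_an.EveryNodeSet

/-- the closed symmetrised bidisc -/
def Gam : Set (ℂ × ℂ) := {p | ∃ z w : ℂ, ‖z‖ ≤ 1 ∧ ‖w‖ ≤ 1 ∧ p = (z + w, z * w)}

/-- the Gamma-interpolation data `lam j ↦ z j` are solvable -/
def GamSolvable {n : ℕ} (lam : Fin n → ℂ) (z : Fin n → ℂ × ℂ) : Prop :=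
  ∃ f : ℂ → ℂ × ℂ, DifferentiableOn ℂ f (ball 0 1) ∧
    (∀ x ∈ ball (0 : ℂ) 1, f x ∈ Gam) ∧ ∀ j, f (lam j) = z j

/-- the Nevanlinna-Pick data `lam j ↦ w j` are solvable -/
def NPSolvable {n : ℕ} (lam : Fin n → ℂ) (w : Fin n → ℂ) : Prop :=
  ∃ g : ℂ → ℂ, DifferentiableOn ℂ g (ball 0 1) ∧
    (∀ x ∈ ball (0 : ℂ) 1, ‖g x‖ ≤ 1) ∧ ∀ j, g (lam j) = w j

/-- Blaschke product of degree `d` -/
noncomputable def blaschke {d : ℕ} (c : ℂ) (a : Fin d → ℂ) (x : ℂ) : ℂ :=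
  c * ∏ k, (x - a k) / (1 - (starRingEnd ℂ) (a k) * x)

/-- the Nevanlinna-Pick data attached to `υ` are solvable -/
def CondAt {n : ℕ} (υ : ℂ → ℂ) (lam : Fin n → ℂ) (z : Fin n → ℂ × ℂ) : Prop :=
  NPSolvable lam fun j =>
    (2 * υ (lam j) * (z j).2 - (z j).1) / (2 - υ (lam j) * (z j).1)

/-- Condition `C_ν` -/
def Cond (ν : ℕ) {n : ℕ} (lam : Fin n → ℂ) (z : Fin n → ℂ × ℂ) : Prop :=
  ∀ d : ℕ, d ≤ ν → ∀ (c : ℂ) (a : Fin d → ℂ), ‖c‖ = 1 → (∀ k, ‖a k‖ < 1) →
    CondAt (blaschke c a) lam z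

/-- `D = (nodes, targets)` are Gamma-interpolation data which satisfy all the conditions `C_ν`, and
even the condition for every analytic `υ` from the disc to the closed disc, and are not solvable -/
def IsCounterexample {n : ℕ} (D : (Fin n → ℂ) × (Fin n → ℂ × ℂ)) : Prop :=
  Function.Injective D.1 ∧ (∀ j, D.1 j ∈ ball (0 : ℂ) 1) ∧ (∀ j, D.2 j ∈ Gam) ∧
    (∀ ν : ℕ, Cond ν D.1 D.2) ∧
    (∀ υ : ℂ → ℂ, DifferentiableOn ℂ υ (ball 0 1) → (∀ x ∈ ball (0 : ℂ) 1, ‖υ x‖ ≤ 1) →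
      CondAt υ D.1 D.2) ∧
    ¬ GamSolvable D.1 D.2

lemma den_ne {a x : ℂ} (ha : ‖a‖ < 1) (hx : ‖x‖ < 1) : (1 - (starRingEnd ℂ) a * x) ≠ 0 := by
  intro h
  have h2 : (starRingEnd ℂ) a * x = 1 := by linear_combination -h
  have h3 : ‖(starRingEnd ℂ) a * x‖ = 1 := by rw [h2]; simp
  rw [norm_mul, Complex.norm_conj] at h3
  nlinarith [norm_nonneg a, norm_nonneg x]

lemma blaschke_diff {d : ℕ} (c : ℂ) (a : Fin d → ℂ) (ha : ∀ k, ‖a k‖ < 1) :
    DifferentiableOn ℂ (blaschke c a) (ball 0 1) := by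
  have : DifferentiableOn ℂ (fun x : ℂ =>
      ∏ k, (x - a k) / (1 - (starRingEnd ℂ) (a k) * x)) (ball 0 1) := by
    refine DifferentiableOn.fun_finsetProd ?_
    intro k _
    exact DifferentiableOn.div (differentiableOn_id.sub (differentiableOn_const _))
      ((differentiableOn_const _).sub (differentiableOn_id.const_mul _))
      fun z hz => den_ne (ha k) (mem_ball_zero_iff.mp hz)
  exact this.const_mul c

lemma blaschke_le {d : ℕ} (c : ℂ) (a : Fin d → ℂ) (hc : ‖c‖ = 1) (ha : ∀ k, ‖a k‖ < 1) (x : ℂ)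
    (hx : ‖x‖ < 1) : ‖blaschke c a x‖ ≤ 1 := by
  unfold blaschke
  rw [norm_mul, hc, one_mul, norm_prod]
  refine Finset.prod_le_one (fun j _ => norm_nonneg _) ?_
  intro k _
  rw [norm_div, div_le_one (norm_pos_iff.mpr (den_ne (ha k) hx))]
  refine (sq_le_sq₀ (norm_nonneg _) (norm_nonneg _)).mp ?_
  have h1 : ‖a k‖ ^ 2 ≤ 1 := by nlinarith [norm_nonneg (a k), ha k]
  have h2 : ‖x‖ ^ 2 ≤ 1 := by nlinarith [norm_nonneg x]
  rw [Complex.sq_norm, Complex.normSq_apply] at *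
  rw [Complex.sq_norm, Complex.normSq_apply]
  simp only [Complex.sub_re, Complex.sub_im, Complex.mul_re, Complex.one_re, Complex.one_im,
    Complex.mul_im, Complex.conj_re, Complex.conj_im]
  nlinarith [mul_nonneg (sub_nonneg.mpr h1) (sub_nonneg.mpr h2)]

/-- **The conjecture fails for every set of at least three nodes.** Let `λ_1, …, λ_n`, `n ≥ 3`, be
any distinct points of the disc and `t ≥ 0`. The data `λ_j ↦ (t λ_j, 0)` are solvable if and only
if `t ≤ 1`; but for all `t > 1` close to `1` they satisfy `C_ν` for every `ν`, even with all Schur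
functions `υ` in place of the Blaschke products, and they are interior points of the set of all
such counterexamples in the space of nodes and targets. -/
theorem result (n : ℕ) (hn : 3 ≤ n) (lam : Fin n → ℂ) (hinj : Function.Injective lam)
    (hball : ∀ j, lam j ∈ ball (0 : ℂ) 1) :
    (∀ t : ℝ, 0 ≤ t → (GamSolvable lam (fun j => ((t : ℂ) * lam j, 0)) ↔ t ≤ 1)) ∧
    ∃ t₀ : ℝ, 1 < t₀ ∧ ∀ t : ℝ, 1 < t → t < t₀ →
      (lam, fun j => ((t : ℂ) * lam j, (0 : ℂ))) ∈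
        interior {D : (Fin n → ℂ) × (Fin n → ℂ × ℂ) | IsCounterexample D} := by
  have h0n : 0 < n := by omega
  -- three of the nodes
  let i0 : Fin n := ⟨0, by omega⟩
  let i1 : Fin n := ⟨1, by omega⟩
  let i2 : Fin n := ⟨2, by omega⟩
  have ne01 : i0 ≠ i1 := by simp [i0, i1, Fin.ext_iff]
  have ne02 : i0 ≠ i2 := by simp [i0, i2, Fin.ext_iff]
  have ne12 : i1 ≠ i2 := by simp [i1, i2, Fin.ext_iff]
  have gamf : ∀ f : ℂ → ℂ × ℂ, (∀ x ∈ ball (0 : ℂ) 1, f x ∈ Gam) →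
      ∀ z ∈ ball (0 : ℂ) 1, ∃ a b : ℂ, ‖a‖ ≤ 1 ∧ ‖b‖ ≤ 1 ∧ (f z).1 = a + b ∧ (f z).2 = a * b := by
    intro f hf z hz
    obtain ⟨a, b, ha, hb, hab⟩ := hf z hz
    exact ⟨a, b, ha, hb, by rw [hab], by rw [hab]⟩
  constructor
  · intro t ht0
    constructor
    · rintro ⟨f, df, hf, hfz⟩
      by_contra ht
      rw [not_le] at ht
      obtain ⟨σ, σ0, hσ⟩ := Pool.Agent.KS6_90.GI.unsolv ht
      refine hσ (fun x => (f x).1) (fun x => (f x).2) (fun _ => 0) (fun _ => 0) df.fst df.snd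
        (gamf f hf) (differentiableOn_const _) (differentiableOn_const _)
        (fun _ _ => by rw [norm_zero]; exact σ0.le) (fun _ _ => by rw [norm_zero]; exact σ0.le)
        (lam i0) (lam i1) (lam i2) (by simpa using hball i0) (by simpa using hball i1)
        (by simpa using hball i2) (hinj.ne ne01) (hinj.ne ne02) (hinj.ne ne12) ?_
      have : ∀ i, (f (lam i)).1 = t * lam i + 0 ∧ (f (lam i)).2 = 0 := fun i => by
        rw [hfz i]; simp
      rintro x (rfl | rfl | rfl)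
      exacts [this i0, this i1, this i2]
    · intro ht
      refine ⟨fun x => ((t : ℂ) * x, 0), (differentiable_id.const_mul (t : ℂ)).differentiableOn.prodMk
        (differentiableOn_const _), fun x hx => ⟨t * x, 0, ?_, by simp, by simp⟩, fun j => rfl⟩
      rw [norm_mul, Complex.norm_real, Real.norm_of_nonneg ht0]
      exact mul_le_one₀ ht (norm_nonneg _) (mem_ball_zero_iff.mp hx).le
  -- the separation constant
  have e1 : ∀ᶠ τ : ℝ in nhdsWithin 0 (Set.Ioi 0), ∀ j : Fin n, ‖lam j‖ + 2 * τ < 1 := by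
    refine Filter.eventually_all.2 fun j => ?_
    have h1 : ‖lam j‖ < 1 := by simpa using hball j
    have h2 : Filter.Tendsto (fun τ : ℝ => ‖lam j‖ + 2 * τ) (nhdsWithin 0 (Set.Ioi 0))
        (nhds (‖lam j‖ + 2 * 0)) :=
      ((continuous_const.add (continuous_const.mul continuous_id)).tendsto 0).mono_left
        nhdsWithin_le_nhds
    rw [mul_zero, add_zero] at h2
    exact h2.eventually (gt_mem_nhds h1)
  have e2 : ∀ᶠ τ : ℝ in nhdsWithin 0 (Set.Ioi 0), ∀ i j : Fin n, i ≠ j →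
      4 * τ ≤ ‖lam j - lam i‖ := by
    refine Filter.eventually_all.2 fun i => Filter.eventually_all.2 fun j => ?_
    by_cases hij : i = j
    · exact Filter.Eventually.of_forall fun _ h => absurd hij h
    have h1 : 0 < ‖lam j - lam i‖ := norm_pos_iff.mpr (sub_ne_zero.mpr (hinj.ne (Ne.symm hij)))
    have h2 : Filter.Tendsto (fun τ : ℝ => 4 * τ) (nhdsWithin 0 (Set.Ioi 0)) (nhds (4 * 0)) :=
      ((continuous_const.mul continuous_id).tendsto 0).mono_left nhdsWithin_le_nhds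
    rw [mul_zero] at h2
    exact (h2.eventually (ge_mem_nhds h1)).mono fun _ h _ => h
  obtain ⟨τ, t1, t2, t3⟩ := (e1.and (e2.and eventually_mem_nhdsWithin)).exists
  have τ0 : 0 < τ := t3
  have τ1 : τ ≤ 1 := by
    have := t1 i0
    linarith [norm_nonneg (lam i0)]
  have τ2 : 2 * τ < 1 := by
    have := t1 i0
    linarith [norm_nonneg (lam i0)]
  obtain ⟨η, η0, ρ, ρ1, hc⟩ := Pool.Agent.KS6_90.GI.cond n (R := 1 - τ) τ0 τ1 (by linarith)
    (by linarith)
  refine ⟨1 + min τ (η / 2), by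
    have : 0 < min τ (η / 2) := lt_min τ0 (by linarith)
    linarith, fun t ht ht0 => ?_⟩
  have ht1 : t - 1 < τ := by linarith [min_le_left τ (η / 2)]
  have ht2 : t - 1 < η / 2 := by linarith [min_le_right τ (η / 2)]
  obtain ⟨σ, σ0, hσ⟩ := Pool.Agent.KS6_90.GI.unsolv ht
  obtain ⟨K, hK⟩ : ∃ K : ℝ, K = n * (1 / τ) ^ n + 1 := ⟨_, rfl⟩
  have K0 : 1 ≤ K := by
    rw [hK]
    have : 0 ≤ (n : ℝ) * (1 / τ) ^ n := by positivity
    linarith
  obtain ⟨ε, hε⟩ : ∃ ε : ℝ, ε = min (min (τ / 2) (η / 4)) (σ / (4 * K)) := ⟨_, rfl⟩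
  have ε0 : 0 < ε := by
    rw [hε]
    exact lt_min (lt_min (by linarith) (by linarith)) (by positivity)
  have ε1 : ε ≤ τ / 2 := by rw [hε]; exact (min_le_left _ _).trans (min_le_left _ _)
  have ε2 : ε ≤ η / 4 := by rw [hε]; exact (min_le_left _ _).trans (min_le_right _ _)
  have ε3 : ε * (4 * K) ≤ σ := by
    have : ε ≤ σ / (4 * K) := by rw [hε]; exact min_le_right _ _
    rwa [le_div_iff₀ (by positivity)] at this
  refine mem_interior.mpr ⟨ball (lam, fun j => ((t : ℂ) * lam j, (0 : ℂ))) ε, ?_, isOpen_ball,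
    mem_ball_self ε0⟩
  intro D hD
  rw [mem_ball, dist_eq_norm] at hD
  have k1 : ∀ j, ‖D.1 j - lam j‖ ≤ ε := fun j =>
    (norm_le_pi_norm (D - (lam, fun j => ((t : ℂ) * lam j, (0 : ℂ)))).1 j).trans
      ((norm_fst_le (D - (lam, fun j => ((t : ℂ) * lam j, (0 : ℂ))))).trans hD.le)
  have k2 : ∀ j, ‖D.2 j - ((t : ℂ) * lam j, (0 : ℂ))‖ ≤ ε := fun j =>
    (norm_le_pi_norm (D - (lam, fun j => ((t : ℂ) * lam j, (0 : ℂ)))).2 j).trans
      ((norm_snd_le (D - (lam, fun j => ((t : ℂ) * lam j, (0 : ℂ))))).trans hD.le)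
  have k3 : ∀ j, ‖(D.2 j).1 - (t : ℂ) * lam j‖ ≤ ε := fun j =>
    (norm_fst_le (D.2 j - ((t : ℂ) * lam j, (0 : ℂ)))).trans (k2 j)
  have k4 : ∀ j, ‖(D.2 j).2‖ ≤ ε := fun j => by
    have h2 := (norm_snd_le (D.2 j - ((t : ℂ) * lam j, (0 : ℂ)))).trans (k2 j)
    have h3 : (D.2 j - ((t : ℂ) * lam j, (0 : ℂ))).2 = (D.2 j).2 := by
      show (D.2 j).2 - 0 = (D.2 j).2
      rw [sub_zero]
    rwa [h3] at h2
  have nl : ∀ j, ‖D.1 j‖ ≤ 1 - τ := fun j => by
    have := norm_add_le (D.1 j - lam j) (lam j)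
    rw [sub_add_cancel] at this
    linarith [k1 j, t1 j]
  have nl1 : ∀ j, ‖D.1 j‖ < 1 := fun j => (nl j).trans_lt (by linarith)
  have sep : ∀ i j, i ≠ j → 2 * τ ≤ ‖D.1 j - D.1 i‖ := fun i j hij => by
    have h1 := t2 i j hij
    have h2 : lam j - lam i = (D.1 j - D.1 i) - (D.1 j - lam j) + (D.1 i - lam i) := by ring
    have h3 := norm_add_le ((D.1 j - D.1 i) - (D.1 j - lam j)) (D.1 i - lam i)
    have h4 := norm_sub_le (D.1 j - D.1 i) (D.1 j - lam j)
    rw [← h2] at h3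
    linarith [k1 i, k1 j]
  have inj : Function.Injective D.1 := fun i j hij => by
    by_contra h
    have := sep i j h
    rw [hij, sub_self, norm_zero] at this
    linarith
  have sl : ∀ j, ‖(D.2 j).1 - D.1 j‖ ≤ η := fun j => by
    have h1 : (D.2 j).1 - D.1 j = ((D.2 j).1 - t * lam j) + ((t - 1 : ℝ) : ℂ) * lam j -
        (D.1 j - lam j) := by push_cast; ring
    rw [h1]
    refine (norm_sub_le _ _).trans ((add_le_add (norm_add_le _ _) le_rfl).trans ?_)
    rw [norm_mul, Complex.norm_real, Real.norm_of_nonneg (by linarith)]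
    have h2 : (t - 1) * ‖lam j‖ ≤ (t - 1) * 1 :=
      mul_le_mul_of_nonneg_left (by linarith [t1 j]) (by linarith)
    linarith [k1 j, k3 j]
  have schur : ∀ υ : ℂ → ℂ, DifferentiableOn ℂ υ (ball 0 1) →
      (∀ x ∈ ball (0 : ℂ) 1, ‖υ x‖ ≤ 1) → CondAt υ D.1 D.2 := fun υ dυ hυ => by
    obtain ⟨g, dg, ng, hg⟩ := hc D.1 (fun j => (D.2 j).1) (fun j => (D.2 j).2) nl sep sl
      (fun j => (k4 j).trans (by linarith)) υ dυ hυ
    exact ⟨g, dg, fun x hx => (ng x hx).trans ρ1.le, hg⟩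
  refine ⟨inj, fun j => by simpa using nl1 j, fun j => ?_, ?_, schur, ?_⟩
  · obtain ⟨a, b, hab, hab'⟩ := Pool.Agent.KS6_90.GI.roots (D.2 j).1 (D.2 j).2
    have hs : ‖(D.2 j).1‖ + ‖(D.2 j).2‖ ≤ 1 := by
      have h1 := norm_add_le ((D.2 j).1 - t * lam j) (t * lam j)
      rw [sub_add_cancel, norm_mul, Complex.norm_real, Real.norm_of_nonneg (by linarith)] at h1
      have h2 : t * ‖lam j‖ ≤ t * (1 - 2 * τ) :=
        mul_le_mul_of_nonneg_left (by linarith [t1 j]) (by linarith)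
      have h3 : t * (1 - 2 * τ) ≤ (1 + τ) * (1 - 2 * τ) :=
        mul_le_mul_of_nonneg_right (by linarith) (by linarith)
      nlinarith [k3 j, k4 j]
    have key : ∀ x : ℂ, x ^ 2 = (D.2 j).1 * x - (D.2 j).2 → ‖x‖ ≤ 1 := fun x hx => by
      by_contra h
      rw [not_le] at h
      have h1 : ‖x‖ ^ 2 ≤ ‖(D.2 j).1‖ * ‖x‖ + ‖(D.2 j).2‖ := by
        rw [← norm_pow, hx, ← norm_mul]
        exact norm_sub_le _ _
      nlinarith [norm_nonneg (D.2 j).2]
    refine ⟨a, b, key a (by rw [hab, hab']; ring), key b (by rw [hab, hab']; ring), ?_⟩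
    rw [← hab, ← hab']
  · intro ν d _ c a hc' ha
    exact schur _ (blaschke_diff c a ha) fun x hx =>
      blaschke_le c a hc' ha x (mem_ball_zero_iff.mp hx)
  · rintro ⟨f, df, hf, hfz⟩
    obtain ⟨A, dA, A1, A2⟩ := Pool.Agent.Y958.GI.correct D.1
      (fun j => (D.2 j).1 - t * D.1 j) (E := 4 * ε) τ0 τ1 nl1 sep fun j => by
        have h1 : (D.2 j).1 - t * D.1 j = ((D.2 j).1 - t * lam j) - t * (D.1 j - lam j) := by ring
        rw [h1]
        refine (norm_sub_le _ _).trans ?_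
        rw [norm_mul, Complex.norm_real, Real.norm_of_nonneg (by linarith)]
        have h2 : t * ‖D.1 j - lam j‖ ≤ 2 * ε :=
          mul_le_mul (by linarith) (k1 j) (norm_nonneg _) (by norm_num)
        linarith [k3 j]
    obtain ⟨B, dB, B1, B2⟩ := Pool.Agent.Y958.GI.correct D.1
      (fun j => (D.2 j).2) (E := 4 * ε) τ0 τ1 nl1 sep fun j => (k4 j).trans (by linarith)
    have hb : (n : ℝ) * (4 * ε * (1 / τ) ^ n) ≤ σ := by
      refine le_trans ?_ ε3
      rw [hK]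
      nlinarith
    refine hσ (fun x => (f x).1) (fun x => (f x).2) A B df.fst df.snd
        (gamf f hf) dA.differentiableOn dB.differentiableOn
        (fun z hz => (A2 z hz).trans hb) (fun z hz => (B2 z hz).trans hb)
        (D.1 i0) (D.1 i1) (D.1 i2) (nl1 i0) (nl1 i1) (nl1 i2)
        (inj.ne ne01) (inj.ne ne02) (inj.ne ne12) ?_
    have : ∀ i, (f (D.1 i)).1 = t * D.1 i + A (D.1 i) ∧ (f (D.1 i)).2 = B (D.1 i) := fun i => by
      rw [hfz i, A1, B1]; simp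
    rintro x (rfl | rfl | rfl)
    exacts [this i0, this i1, this i2]

end Pool.Agent.Results.MP_2550b6_an.EveryNodeSet
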